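import Pool.Agent.H32.Jet2

namespace Pool.Agent.Results.MP_9703cd_gt.NotIsothermal

open Set Filter Topology

/-- `T` restricted to the unit square is a continuous t-norm. -/
structure IsContTNorm (T : ℝ × ℝ → ℝ) : Prop where
  mem : ∀ x ∈ Icc (0 : ℝ) 1, ∀ y ∈ Icc (0 : ℝ) 1, T (x, y) ∈ Icc (0 : ℝ) 1
  assoc : ∀ x ∈ Icc (0 : ℝ) 1, ∀ y ∈ Icc (0 : ℝ) 1, ∀ z ∈ Icc (0 : ℝ) 1,
    T (T (x, y), z) = T (x, T (y, z))
  comm : ∀ x ∈ Icc (0 : ℝ) 1, ∀ y ∈ Icc (0 : ℝ) 1, T (x, y) = T (y, x)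
  mono : ∀ x ∈ Icc (0 : ℝ) 1, ∀ x' ∈ Icc (0 : ℝ) 1, ∀ y ∈ Icc (0 : ℝ) 1, x ≤ x' →
    T (x, y) ≤ T (x', y) ∧ T (y, x) ≤ T (y, x')
  one : ∀ x ∈ Icc (0 : ℝ) 1, T (x, 1) = x
  cont : ContinuousOn T (Icc 0 1 ×ˢ Icc 0 1)

/-- First fundamental form of the graph of `T` over `P`: the Euclidean inner product of the
tangent vectors `(a, dT a)` and `(b, dT b)`. -/
noncomputable def form1 (T : ℝ × ℝ → ℝ) (P a b : ℝ × ℝ) : ℝ :=
  a.1 * b.1 + a.2 * b.2 + fderiv ℝ T P a * fderiv ℝ T P b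

/-- Second fundamental form of the graph of `T` over `P` (upward unit normal). -/
noncomputable def form2 (T : ℝ × ℝ → ℝ) (P a b : ℝ × ℝ) : ℝ :=
  fderiv ℝ (fderiv ℝ T) P a b / √(1 + fderiv ℝ T P (1, 0) ^ 2 + fderiv ℝ T P (0, 1) ^ 2)

/-- `a` is a principal direction: an eigenvector of the shape operator. -/
def Principal (T : ℝ × ℝ → ℝ) (P a : ℝ × ℝ) : Prop :=
  a ≠ 0 ∧ ∃ κ : ℝ, ∀ b, form2 T P a b = κ * form1 T P a b

/-- The point of the graph over `P` is umbilic. -/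
def Umbilic (T : ℝ × ℝ → ℝ) (P : ℝ × ℝ) : Prop :=
  ∃ κ : ℝ, ∀ a b, form2 T P a b = κ * form1 T P a b

/-- There are local parameters `w = (u, v)` around `P` whose coordinate curves are lines of
curvature and in which the first fundamental form is `lam * (du ^ 2 + dv ^ 2)`. -/
def IsothermalNear (T : ℝ × ℝ → ℝ) (U : Set (ℝ × ℝ)) (P : ℝ × ℝ) : Prop :=
  ∃ (V : Set (ℝ × ℝ)) (φ : ℝ × ℝ → ℝ × ℝ) (lam : ℝ × ℝ → ℝ) (w0 : ℝ × ℝ),
    IsOpen V ∧ w0 ∈ V ∧ φ w0 = P ∧ ContDiffOn ℝ 3 φ V ∧ MapsTo φ V U ∧ ∀ w ∈ V, 0 < lam w ∧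
      (∀ a b, form1 T (φ w) (fderiv ℝ φ w a) (fderiv ℝ φ w b) = lam w * (a.1 * b.1 + a.2 * b.2)) ∧
      Principal T (φ w) (fderiv ℝ φ w (1, 0)) ∧ Principal T (φ w) (fderiv ℝ φ w (0, 1))

noncomputable def e (s : ℝ) : ℝ := if s ≤ 1 / 2 then s else 3 / 4 + 16 * (s - 3 / 4) ^ 3

theorem e_mono : StrictMono e := by
  have h3 : StrictMono fun s : ℝ => s ^ 3 := Odd.strictMono_pow (by decide)
  intro s t h
  simp only [e]
  split_ifs with h1 h2 h2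
  · exact h
  · have : (-1 / 4 : ℝ) ^ 3 < (t - 3 / 4) ^ 3 := h3 (by linarith)
    linarith
  · linarith
  · have : (s - 3 / 4) ^ 3 < (t - 3 / 4) ^ 3 := h3 (by linarith)
    linarith

theorem e_surj : Function.Surjective e := by
  intro y
  by_cases h : y ≤ 1 / 2
  · exact ⟨y, if_pos h⟩
  · have h3 : StrictMono fun s : ℝ => s ^ 3 := Odd.strictMono_pow (by decide)
    obtain ⟨c, hc⟩ : ∃ c : ℝ, c ^ 3 = (y - 3 / 4) / 16 := by
      have h4 := intermediate_value_Icc (f := fun s : ℝ => s ^ 3) (a := -1) (b := y + 1)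
        (by linarith) (continuous_pow 3).continuousOn
      have h5 : 0 < y := by linarith
      obtain ⟨c, -, hc⟩ := h4 (show (y - 3 / 4) / 16 ∈ Icc ((-1 : ℝ) ^ 3) ((y + 1) ^ 3) from
        ⟨by linarith, by nlinarith [pow_pos h5 2, pow_pos h5 3]⟩)
      exact ⟨c, hc⟩
    have : (-1 / 4 : ℝ) < c := h3.lt_iff_lt.1 (by simp only [hc]; linarith)
    refine ⟨c + 3 / 4, ?_⟩
    rw [e, if_neg (by linarith), add_sub_cancel_right, hc]
    ring

noncomputable def E : ℝ ≃o ℝ := e_mono.orderIsoOfSurjective e e_surj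

theorem E_apply (s : ℝ) : E s = e s := rfl

theorem E0 : E 0 = 0 := by rw [E_apply, e, if_pos (by norm_num)]

theorem E1 : E 1 = 1 := by
  rw [E_apply, e, if_neg (by norm_num)]
  norm_num

noncomputable def T (P : ℝ × ℝ) : ℝ := E.symm (max (E P.1 + E P.2 - 1) 0)

theorem E_mem {x : ℝ} (h : x ∈ Icc (0 : ℝ) 1) : 0 ≤ E x ∧ E x ≤ 1 :=
  ⟨E0 ▸ E.monotone h.1, E1 ▸ E.monotone h.2⟩

theorem tnorm : IsContTNorm T where
  mem x hx y hy := by
    have := E_mem hx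
    have := E_mem hy
    refine ⟨E.le_symm_apply.2 (E0.le.trans (le_max_right _ _)), E.symm_apply_le.2 ?_⟩
    rw [E1]
    exact max_le (by linarith) zero_le_one
  assoc x hx y hy z hz := by
    have := E_mem hx
    have := E_mem hz
    simp only [T, OrderIso.apply_symm_apply]
    congr 1
    simp only [max_def]
    split_ifs <;> linarith
  comm x _ y _ := by simp only [T, add_comm]
  mono x _ x' _ y _ h := by
    have := E.monotone h
    exact ⟨E.symm.monotone (max_le_max (by linarith) le_rfl),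
      E.symm.monotone (max_le_max (by linarith) le_rfl)⟩
  one x hx := by
    simp only [T, E1, add_sub_cancel_right, max_eq_left (E_mem hx).1, OrderIso.symm_apply_apply]
  cont := by
    have h1 := E.continuous
    have h2 := E.symm.continuous
    refine Continuous.continuousOn ?_
    unfold T
    fun_prop

def U : Set (ℝ × ℝ) := Ioo (11 / 16) (13 / 16) ×ˢ Ioo (19 / 32) (21 / 32)

theorem U_open : IsOpen U := isOpen_Ioo.prod isOpen_Ioo

noncomputable def G (P : ℝ × ℝ) : ℝ := 1 / 2 + 16 * ((P.1 - 3 / 4) ^ 3 + (P.2 - 3 / 4) ^ 3)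

theorem T_eq {P : ℝ × ℝ} (h : P ∈ U) : T P = G P := by
  obtain ⟨⟨h1, h2⟩, h3, h4⟩ := h
  have k : StrictMono fun s : ℝ => s ^ 3 := Odd.strictMono_pow (by decide)
  have a1 : (-1 / 16 : ℝ) ^ 3 < (P.1 - 3 / 4) ^ 3 := k (by linarith)
  have a2 : (P.1 - 3 / 4) ^ 3 < (1 / 16 : ℝ) ^ 3 := k (by linarith)
  have a3 : (-5 / 32 : ℝ) ^ 3 < (P.2 - 3 / 4) ^ 3 := k (by linarith)
  have a4 : (P.2 - 3 / 4) ^ 3 < (-3 / 32 : ℝ) ^ 3 := k (by linarith)
  rw [T, OrderIso.symm_apply_eq, E_apply, E_apply, E_apply, e, e, e, if_neg (by linarith),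
    if_neg (by linarith), if_pos (by rw [G]; linarith), max_eq_left (by linarith), G]
  ring

theorem T_ev {P : ℝ × ℝ} (h : P ∈ U) : T =ᶠ[𝓝 P] G :=
  Filter.mem_of_superset (U_open.mem_nhds h) fun _ => T_eq

noncomputable def dG (P : ℝ × ℝ) : ℝ × ℝ →L[ℝ] ℝ :=
  (48 * (P.1 - 3 / 4) ^ 2) • ContinuousLinearMap.fst ℝ ℝ ℝ +
    (48 * (P.2 - 3 / 4) ^ 2) • ContinuousLinearMap.snd ℝ ℝ ℝ

theorem fderiv_G : fderiv ℝ G = dG := by
  funext P
  have h := ((((hasFDerivAt_fst (𝕜 := ℝ) (p := P)).sub_const (3 / 4)).pow 3).fun_add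
    (((hasFDerivAt_snd (𝕜 := ℝ) (p := P)).sub_const (3 / 4)).pow 3)).const_mul 16 |>.const_add (1 / 2)
  refine h.fderiv.trans ?_
  ext <;> simp [dG] <;> ring

theorem d1 {P : ℝ × ℝ} (h : P ∈ U) (a : ℝ × ℝ) :
    fderiv ℝ T P a = 48 * (P.1 - 3 / 4) ^ 2 * a.1 + 48 * (P.2 - 3 / 4) ^ 2 * a.2 := by
  rw [(T_ev h).fderiv_eq, fderiv_G]
  simp [dG]

theorem d2 {P : ℝ × ℝ} (h : P ∈ U) (a b : ℝ × ℝ) :
    fderiv ℝ (fderiv ℝ T) P a b = 96 * ((P.1 - 3 / 4) * (a.1 * b.1) + (P.2 - 3 / 4) * (a.2 * b.2)) := by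
  rw [(T_ev h).fderiv.fderiv_eq, fderiv_G]
  have h := (((((hasFDerivAt_fst (𝕜 := ℝ) (p := P)).sub_const (3 / 4)).pow 2).const_mul 48).smul_const
    (ContinuousLinearMap.fst ℝ ℝ ℝ)).fun_add (((((hasFDerivAt_snd (𝕜 := ℝ) (p := P)).sub_const
      (3 / 4)).pow 2).const_mul 48).smul_const (ContinuousLinearMap.snd ℝ ℝ ℝ))
  rw [show fderiv ℝ dG P = _ from h.fderiv]
  simp
  ring

open Pool.Agent.H32.Jet2 in
theorem not_iso : ¬ IsothermalNear T U (3 / 4, 5 / 8) := by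
  rintro ⟨V, φ, lam, w0, hV, hw, h0, hφ, hm, H⟩
  have hφ0 := hφ.contDiffAt (hV.mem_nhds hw)
  let X : ℝ × ℝ → ℝ := fun w => (φ w).1 - 3 / 4
  let Y : ℝ × ℝ → ℝ := fun w => (φ w).2 - 3 / 4
  have hX : ContDiffAt ℝ 3 X w0 := hφ0.fst.sub contDiffAt_const
  have hY : ContDiffAt ℝ 3 Y w0 := hφ0.snd.sub contDiffAt_const
  have hX0 : X w0 = 0 := by simp [X, h0]
  have hY0 : Y w0 = -1 / 8 := by
    simp only [Y, h0]
    norm_num
  have hd : ∀ w ∈ V, ∀ a, fderiv ℝ φ w a = (D a X w, D a Y w) := fun w hw a => by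
    have := ((hφ.contDiffAt (hV.mem_nhds hw)).differentiableAt (by simp)).hasFDerivAt
    simp only [D, X, Y]
    rw [(this.fst.sub_const _).fderiv, (this.snd.sub_const _).fderiv]
    rfl
  have h1 : ∀ w ∈ V, ∀ a b, D a X w * D b X w + D a Y w * D b Y w +
      (48 * (X w * X w) * D a X w + 48 * (Y w * Y w) * D a Y w) *
      (48 * (X w * X w) * D b X w + 48 * (Y w * Y w) * D b Y w) =
        lam w * (a.1 * b.1 + a.2 * b.2) := fun w hw a b => by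
    rw [← (H w hw).2.1 a b, form1, d1 (hm hw), d1 (hm hw), hd w hw, hd w hw]
    ring
  have h2 : ∀ w ∈ V, X w * (D (1, 0) X w * D (0, 1) X w) +
      Y w * (D (1, 0) Y w * D (0, 1) Y w) = 0 := fun w hw => by
    obtain ⟨-, κ, hκ⟩ := (H w hw).2.2.1
    have := hκ (fderiv ℝ φ w (0, 1))
    rw [(H w hw).2.1, form2, d2 (hm hw), hd w hw, hd w hw] at this
    simp only [mul_zero, zero_mul, add_zero, div_eq_zero_iff] at this
    have h3 := this.resolve_right (Real.sqrt_pos.2 (by positivity)).ne'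
    exact (mul_eq_zero.1 h3).resolve_left (by norm_num)
  have hev : ∀ᶠ w in 𝓝 w0, w ∈ V := hV.mem_nhds hw
  have hl := (H w0 hw).1
  have a12 := h1 w0 hw (1, 0) (0, 1)
  have a11 := h1 w0 hw (1, 0) (1, 0)
  have a22 := h1 w0 hw (0, 1) (0, 1)
  have b := h2 w0 hw
  rw [hX0, hY0] at b
  rcases mul_eq_zero.1 (show D (1, 0) Y w0 * D (0, 1) Y w0 = 0 by linarith) with hv | hv
  · refine main (e1 := (0, 1)) (e2 := (1, 0)) hX hY hX0 hY0 hv (fun hn => ?_)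
      (hev.mono fun w hw => ?_) (hev.mono fun w hw => ?_) (hev.mono fun w hw => ?_)
    · rw [hv, hn] at a11
      simp at a11
      linarith
    · rw [h1 w hw]
      simp
    · linarith [h2 w hw]
    · rw [h1 w hw, h1 w hw]
      simp
  · refine main (e1 := (1, 0)) (e2 := (0, 1)) hX hY hX0 hY0 hv (fun hn => ?_)
      (hev.mono fun w hw => ?_) (hev.mono h2) (hev.mono fun w hw => ?_)
    · rw [hv, hn] at a22
      simp at a22
      linarith
    · rw [h1 w hw]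
      simp
    · rw [h1 w hw, h1 w hw]
      simp

theorem result : ∃ (T : ℝ × ℝ → ℝ) (U : Set (ℝ × ℝ)) (P : ℝ × ℝ), IsContTNorm T ∧ IsOpen U ∧
    U ⊆ Ioo 0 1 ×ˢ Ioo 0 1 ∧ ContDiffOn ℝ (⊤ : ℕ∞) T U ∧ P ∈ U ∧ ¬ Umbilic T P ∧
      ¬ IsothermalNear T U P := by
  have hP : ((3 / 4, 5 / 8) : ℝ × ℝ) ∈ U := by
    refine ⟨⟨?_, ?_⟩, ?_, ?_⟩ <;> norm_num
  refine ⟨T, U, (3 / 4, 5 / 8), tnorm, U_open, ?_, ?_, hP, ?_, not_iso⟩
  · exact prod_mono (Ioo_subset_Ioo (by norm_num) (by norm_num))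
      (Ioo_subset_Ioo (by norm_num) (by norm_num))
  · refine ContDiffOn.congr (f := G) (ContDiff.contDiffOn ?_) fun _ => T_eq
    unfold G
    fun_prop
  · rintro ⟨κ, h⟩
    have h1 := h (1, 0) (1, 0)
    have h2 := h (0, 1) (0, 1)
    rw [form1, form2, d2 hP, d1 hP] at h1
    norm_num at h1
    rw [← h1, zero_mul, form2, d2 hP, div_eq_zero_iff] at h2
    have h3 := h2.resolve_right (Real.sqrt_pos.2 (by positivity)).ne'
    norm_num at h3

end Pool.Agent.Results.MP_9703cd_gt.NotIsothermal
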